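import Mathlib
import Pool.Agent.H23.CM.Main

/-!
# Colmez's product formula for almost all CM quadratic extensions of a totally real field

The definitions (`act`, `IsCMType`, `a0`, `heightFn`, `totalFn`, `ProductFormulas`) are in
`Pool.Agent.H23.CM.Defs`. `ProductFormulas E` says that all cases of Colmez's product formula for
the field `E` follow from the averaged formula (a theorem of Andreatta, Goren, Howard and Madapusi
Pera, and of Yuan and Zhang): for all CM fields `K`, Galois over `ℚ`, and all `ℚ`-linear functions
`ht`, `Z` on the rational functions on `Gal(K/ℚ)` which agree at `1` and at the sums of the `A_Φ`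
over all CM types of a field, `ht(a⁰_{E,ψ,Φ}) = Z(a⁰_{E,ψ,Φ})` for every CM type `Φ` of `E` and
every `ψ`, and moreover the function `A_Φ` is the same for all CM types `Φ` of `E`.

The proof. Let `E = F(√a)` be exceptional. By the theorem `ConjugateExtensions` of the starting
library there is a proper subfield `L` of `F` such that, in the normal closure `M` of `F`,
`a · g(a)` is a square for all automorphisms `g` of `M` which are trivial on `L`. So the parity
of the valuation of `a` at a prime of `F` unramified in `M` depends only on the prime of `L` below,
and an ideal of `L` whose `[F : L]`-th power of the norm is at most `|discr E|` determines all the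
parities, except at finitely many primes; the parities determine `E` up to finitely many
possibilities, by the finiteness of the class number and of the units modulo squares. The number
of the ideals of `L` of norm at most `Y` is `O(Y)`.
-/

set_option autoImplicit false

open NumberField Module Pool.Agent.H23.CM

/-- Let `F` be a totally real number field and `m ≥ 1` such that `F` has degree at least `m` over
each of its proper subfields (`m = 2` is always possible; `m = [F : ℚ]` if `F` has no subfields
besides `ℚ` and `F`, for example if this degree is prime or if the Galois group of the normal
closure is the symmetric or the alternating group). Then there is a constant `C` such that for all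
`X ≥ 1` every family of pairwise not `F`-isomorphic quadratic extensions `E i` of `F` of
discriminant at most `X` in absolute value which are exceptional (not all cases of Colmez's
product formula for `E i` follow from the averaged formula) is finite and has at most
`C X ^ (1 / m)` members. -/
theorem Pool.Agent.Results.MP_a2beea_nt.AlmostAllQuadratic.result
    (F : Type) [Field F] [NumberField F] [IsTotallyReal F] (m : ℕ) (hm : 0 < m)
    (hF : ∀ L : IntermediateField ℚ F, L ≠ ⊤ → m ≤ finrank L F) :
    ∃ C : ℝ, ∀ X : ℝ, 1 ≤ X → ∀ (ι : Type) (E : ι → Type) [∀ i, Field (E i)]
      [∀ i, NumberField (E i)] [∀ i, Algebra F (E i)],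
      (∀ i, finrank F (E i) = 2) → (∀ i j, Nonempty (E i ≃ₐ[F] E j) → i = j) →
      (∀ i, |(discr (E i) : ℝ)| ≤ X) → (∀ i, ¬ ProductFormulas (E i)) →
      Finite ι ∧ (Nat.card ι : ℝ) ≤ C * X ^ ((1 : ℝ) / m) :=
  exceptional_le F m hm hF
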